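import Pool.Agent.H25.MF.Targets

/-!
Board mf (`MP_118735_nt`): rows CO, FX, RF (helper67).
-/

set_option autoImplicit false

open Complex MeasureTheory Set Filter Topology

namespace Pool.Agent.H67.MF

open Pool.Agent.H25.MF

/-! ### CO -/

theorem cos_quot_bd (t : ℝ) : |(1 - Real.cos t) / t| ≤ |t| / 2 := by
  rcases eq_or_ne t 0 with h | h
  · simp [h]
  · have h1 : 1 - Real.cos t ≤ t ^ 2 / 2 := by
      linarith [Real.one_sub_sq_div_two_le_cos (x := t)]
    have h2 : 0 ≤ 1 - Real.cos t := by linarith [Real.cos_le_one t]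
    rw [abs_div, abs_of_nonneg h2, div_le_div_iff₀ (abs_pos.2 h) two_pos]
    have h3 : |t| * |t| = t ^ 2 := by rw [← sq, sq_abs]
    rw [h3]
    linarith

theorem cos_quot_cont : Continuous (fun t : ℝ => (1 - Real.cos t) / t) := by
  rw [continuous_iff_continuousAt]
  intro t
  rcases eq_or_ne t 0 with h | h
  · subst h
    unfold ContinuousAt
    simp only [div_zero]
    refine squeeze_zero_norm (a := fun t : ℝ => |t| / 2) (fun t => ?_) ?_
    · rw [Real.norm_eq_abs]
      exact cos_quot_bd t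
    · have : Continuous (fun t : ℝ => |t| / 2) := by fun_prop
      have h2 := this.tendsto 0
      simpa using h2
  · exact ContinuousAt.div (by fun_prop) continuousAt_id h

theorem cin_deriv (w : ℝ) : HasDerivAt Cin ((1 - Real.cos w) / w) w :=
  (cos_quot_cont.integral_hasStrictDerivAt 0 w).hasDerivAt

theorem pf_CO (hCM : T_CM) (hCN : T_CN) : T_CO := by
  intro s hs1 hs2
  obtain ⟨hc, _, h1, C, hC⟩ := hCN
  obtain ⟨hI, hM⟩ := hCM s hs1 (by linarith)
  have hs0 : s ≠ 0 := by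
    intro h
    rw [h, zero_re] at hs2
    norm_num at hs2
  have hnorm : ∀ (w : ℝ) (q : ℂ), 0 < w → ‖(w : ℂ) ^ q‖ = w ^ q.re := fun w q hw =>
    Complex.norm_cpow_eq_rpow_re_of_pos hw q
  have hmeas : AEStronglyMeasurable (fun w : ℝ => (Cin w : ℂ) * (w : ℂ) ^ (s - 1))
      (volume.restrict (Ioi 0)) := by
    refine ContinuousOn.aestronglyMeasurable ?_ measurableSet_Ioi
    intro w hw
    refine ContinuousAt.continuousWithinAt (ContinuousAt.mul ?_ ?_)
    · exact (continuous_ofReal.comp hc).continuousAt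
    · exact Complex.continuousAt_ofReal_cpow_const w (s - 1) (Or.inr (ne_of_gt hw))
  -- integrability
  have hint : IntegrableOn (fun w : ℝ => (Cin w : ℂ) * (w : ℂ) ^ (s - 1)) (Ioi 0) := by
    rw [← Ioc_union_Ioi_eq_Ioi (zero_le_one (α := ℝ))]
    refine IntegrableOn.union ?_ ?_
    · have h2 : IntegrableOn (fun w : ℝ => 4⁻¹ * w ^ (s.re + 1)) (Ioc 0 1) := by
        have h3 := (intervalIntegral.intervalIntegrable_rpow' (a := 0) (b := 1) (r := s.re + 1)
          (by linarith))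
        rw [intervalIntegrable_iff_integrableOn_Ioc_of_le zero_le_one] at h3
        exact h3.const_mul _
      refine h2.mono' (hmeas.mono_set Ioc_subset_Ioi_self) ?_
      refine (ae_restrict_iff' measurableSet_Ioc).2 (Eventually.of_forall fun w hw => ?_)
      rw [norm_mul, hnorm w _ hw.1, Complex.norm_real, Real.norm_eq_abs,
        abs_of_nonneg (h1 w hw.1.le).1]
      have h4 := (h1 w hw.1.le).2
      have h5 : (s - 1).re = s.re - 1 := by simp
      have h6 : w ^ (s.re + 1) = w ^ 2 * w ^ (s.re - 1) := by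
        rw [← Real.rpow_natCast, ← Real.rpow_add hw.1]
        congr 1
        push_cast
        ring
      rw [h5, h6]
      have h7 : 0 ≤ w ^ (s.re - 1) := Real.rpow_nonneg hw.1.le _
      nlinarith
    · have h2 : IntegrableOn (fun w : ℝ => C * w ^ (s.re - 7 / 8)) (Ioi 1) :=
        (integrableOn_Ioi_rpow_of_lt (by linarith) one_pos).const_mul _
      refine h2.mono' (hmeas.mono_set (Ioi_subset_Ioi zero_le_one)) ?_
      refine (ae_restrict_iff' measurableSet_Ioi).2 (Eventually.of_forall fun w hw => ?_)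
      have hw0 : 0 < w := lt_trans one_pos hw
      rw [norm_mul, hnorm w _ hw0, Complex.norm_real, Real.norm_eq_abs,
        abs_of_nonneg (h1 w hw0.le).1]
      have h4 := hC w hw0.le
      have h5 : (s - 1).re = s.re - 1 := by simp
      have h6 : w ^ (s.re - 7 / 8) = w ^ (1 / 8 : ℝ) * w ^ (s.re - 1) := by
        rw [← Real.rpow_add hw0]
        congr 1
        ring
      rw [h5, h6, ← mul_assoc]
      exact mul_le_mul_of_nonneg_right h4 (Real.rpow_nonneg hw0.le _)
  refine ⟨hint, ?_⟩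
  have hu : ∀ w ∈ Ioi (0 : ℝ), HasDerivAt (fun w : ℝ => (Cin w : ℂ))
      (((1 - Real.cos w) / w : ℝ) : ℂ) w := fun w _ => (cin_deriv w).ofReal_comp
  have hv : ∀ w ∈ Ioi (0 : ℝ), HasDerivAt (fun w : ℝ => (w : ℂ) ^ s / s)
      ((w : ℂ) ^ (s - 1)) w := by
    intro w hw
    have h2 := (hasDerivAt_ofReal_cpow_const (x := w) (r := s) (ne_of_gt hw) hs0).div_const s
    rwa [mul_div_cancel_left₀ _ hs0] at h2
  have huv' : IntegrableOn ((fun w : ℝ => (Cin w : ℂ)) * fun w : ℝ => (w : ℂ) ^ (s - 1))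
      (Ioi 0) := hint
  have hq : ∀ w ∈ Ioi (0 : ℝ), (((1 - Real.cos w) / w : ℝ) : ℂ) * ((w : ℂ) ^ s / s) =
      ((1 - Real.cos w : ℝ) : ℂ) * (w : ℂ) ^ (s - 1) * s⁻¹ := by
    intro w hw
    have hw' : (w : ℂ) ≠ 0 := ofReal_ne_zero.2 (ne_of_gt hw)
    rw [cpow_sub _ _ hw', cpow_one]
    push_cast
    field_simp
  have hu'v : IntegrableOn ((fun w : ℝ => (((1 - Real.cos w) / w : ℝ) : ℂ)) *
      fun w : ℝ => (w : ℂ) ^ s / s) (Ioi 0) :=
    IntegrableOn.congr_fun (hI.mul_const s⁻¹) (fun w hw => (hq w hw).symm) measurableSet_Ioi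
  have hzero : Tendsto ((fun w : ℝ => (Cin w : ℂ)) * fun w : ℝ => (w : ℂ) ^ s / s) (𝓝[>] 0)
      (𝓝 0) := by
    have h2 : Tendsto (fun w : ℝ => w ^ (s.re + 2) * (4⁻¹ * ‖s‖⁻¹)) (𝓝[>] 0) (𝓝 0) := by
      have h3 : ContinuousAt (fun w : ℝ => w ^ (s.re + 2) * (4⁻¹ * ‖s‖⁻¹)) 0 :=
        (Real.continuousAt_rpow_const 0 (s.re + 2) (Or.inr (by linarith))).mul
          continuousAt_const
      have h4 := h3.tendsto
      rw [Real.zero_rpow (by linarith), zero_mul] at h4
      exact h4.mono_left nhdsWithin_le_nhds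
    refine squeeze_zero_norm' ?_ h2
    filter_upwards [self_mem_nhdsWithin] with w hw
    have hw0 : 0 < w := hw
    rw [Pi.mul_apply, norm_mul, norm_div, hnorm w s hw0, Complex.norm_real, Real.norm_eq_abs,
      abs_of_nonneg (h1 w hw0.le).1]
    have h5 : w ^ (s.re + 2) = w ^ 2 * w ^ s.re := by
      rw [← Real.rpow_natCast, ← Real.rpow_add hw0]
      congr 1
      push_cast
      ring
    rw [h5]
    have h6 : 0 ≤ w ^ s.re * ‖s‖⁻¹ := mul_nonneg (Real.rpow_nonneg hw0.le _) (by positivity)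
    have h7 := mul_le_mul_of_nonneg_right (h1 w hw0.le).2 h6
    calc Cin w * (w ^ s.re / ‖s‖) = Cin w * (w ^ s.re * ‖s‖⁻¹) := by rw [div_eq_mul_inv]
      _ ≤ w ^ 2 / 4 * (w ^ s.re * ‖s‖⁻¹) := h7
      _ = _ := by ring
  have hinf : Tendsto ((fun w : ℝ => (Cin w : ℂ)) * fun w : ℝ => (w : ℂ) ^ s / s) atTop
      (𝓝 0) := by
    have h2 : Tendsto (fun w : ℝ => w ^ (-(-(s.re + 1 / 8))) * (C * ‖s‖⁻¹)) atTop (𝓝 0) := by
      have h3 := (tendsto_rpow_neg_atTop (y := -(s.re + 1 / 8)) (by linarith)).mul_const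
        (C * ‖s‖⁻¹)
      rwa [zero_mul] at h3
    refine squeeze_zero_norm' ?_ h2
    filter_upwards [eventually_gt_atTop (0 : ℝ)] with w hw0
    rw [Pi.mul_apply, norm_mul, norm_div, hnorm w s hw0, Complex.norm_real, Real.norm_eq_abs,
      abs_of_nonneg (h1 w hw0.le).1]
    have h5 : w ^ (-(-(s.re + 1 / 8))) = w ^ (1 / 8 : ℝ) * w ^ s.re := by
      rw [← Real.rpow_add hw0]
      congr 1
      ring
    rw [h5]
    have h6 : 0 ≤ w ^ s.re * ‖s‖⁻¹ := mul_nonneg (Real.rpow_nonneg hw0.le _) (by positivity)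
    have h7 := mul_le_mul_of_nonneg_right (hC w hw0.le) h6
    calc Cin w * (w ^ s.re / ‖s‖) = Cin w * (w ^ s.re * ‖s‖⁻¹) := by rw [div_eq_mul_inv]
      _ ≤ C * w ^ (1 / 8 : ℝ) * (w ^ s.re * ‖s‖⁻¹) := h7
      _ = _ := by ring
  have hmain := integral_Ioi_mul_deriv_eq_deriv_mul hu hv huv' hu'v hzero hinf
  rw [hmain, setIntegral_congr_fun measurableSet_Ioi hq, integral_mul_const, hM]
  field_simp
  ring

/-! ### FX -/

theorem M_cont (y : ℝ) (n : ℕ) (h1 : (n : ℝ) < y) (h2 : y < n + 1) : ContinuousAt M y := by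
  have h3 : ∀ᶠ y' in 𝓝 y, M y = M y' := by
    filter_upwards [Ioo_mem_nhds h1 h2] with y' hy'
    have e1 : ⌊y⌋₊ = n := (Nat.floor_eq_iff (le_trans (Nat.cast_nonneg n) h1.le)).2 ⟨h1.le, h2⟩
    have e2 : ⌊y'⌋₊ = n :=
      (Nat.floor_eq_iff (le_trans (Nat.cast_nonneg n) hy'.1.le)).2 ⟨hy'.1.le, hy'.2⟩
    unfold M
    rw [e1, e2]
  exact (tendsto_const_nhds).congr' h3

theorem M_rc (y : ℝ) (hy : 0 < y) : ContinuousWithinAt M (Ioi y) y := by
  have h3 : ∀ᶠ y' in 𝓝[>] y, M y = M y' := by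
    have h4 : y < (⌊y⌋₊ : ℝ) + 1 := Nat.lt_floor_add_one y
    filter_upwards [self_mem_nhdsWithin, mem_nhdsWithin_of_mem_nhds (Iio_mem_nhds h4)] with y' hy1 hy2
    have e2 : ⌊y'⌋₊ = ⌊y⌋₊ := by
      refine (Nat.floor_eq_iff (le_trans hy.le (le_of_lt hy1))).2 ⟨?_, hy2⟩
      exact (Nat.floor_le hy.le).trans (le_of_lt hy1)
    unfold M
    rw [e2]
  exact (tendsto_const_nhds).congr' h3

theorem gf_cont (hR : Continuous R) (v : ℝ) (n : ℕ) (h1 : (n : ℝ) < Real.exp v)
    (h2 : Real.exp v < n + 1) : ContinuousAt gf v := by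
  have hM : ContinuousAt (fun v => M (Real.exp v)) v :=
    ContinuousAt.comp (f := Real.exp) (M_cont _ n h1 h2) Real.continuous_exp.continuousAt
  have hN : ContinuousAt (fun v => R (1 / Real.exp v)) v := by
    have : Continuous (fun v : ℝ => R (1 / Real.exp v)) :=
      hR.comp (continuous_const.div Real.continuous_exp fun v => (Real.exp_pos v).ne')
    exact this.continuousAt
  unfold gf N
  exact ((hM.add continuousAt_const).sub hN).mul (by fun_prop)

theorem gf_rc (hR : Continuous R) (v : ℝ) : ContinuousWithinAt gf (Ioi v) v := by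
  have hM : ContinuousWithinAt (fun v => M (Real.exp v)) (Ioi v) v :=
    ContinuousWithinAt.comp (f := Real.exp) (M_rc _ (Real.exp_pos v))
      Real.continuous_exp.continuousWithinAt (fun w hw => Real.exp_lt_exp.2 hw)
  have hN : ContinuousWithinAt (fun v => R (1 / Real.exp v)) (Ioi v) v := by
    have : Continuous (fun v : ℝ => R (1 / Real.exp v)) :=
      hR.comp (continuous_const.div Real.continuous_exp fun v => (Real.exp_pos v).ne')
    exact this.continuousWithinAt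
  unfold gf N
  exact ((hM.add continuousWithinAt_const).sub hN).mul
    (Continuous.continuousWithinAt (by fun_prop))

theorem pf_FX (hRB : T_RB) : T_FX := by
  intro J c hJ k hk x hx
  obtain ⟨hR, _, _⟩ := hRB
  have hle : ∀ v, gL J c gf v ≤ k := by
    intro v
    have hrc : ContinuousWithinAt (gL J c gf) (Ioi v) v := by
      unfold gL
      refine tendsto_finsetSum _ fun a ha => Tendsto.const_mul _ ?_
      exact ContinuousWithinAt.comp (f := fun v : ℝ => v + Real.log a) (gf_rc hR (v + Real.log a))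
        (Continuous.continuousWithinAt (by fun_prop)) (fun w hw => by
          simpa using hw)
    refine le_of_tendsto hrc ?_
    have hev : ∀ᶠ v' in 𝓝[>] v, ∀ a ∈ J, ContinuousAt gf (v' + Real.log a) := by
      rw [Filter.eventually_all_finset]
      intro a ha
      have h4 : Real.exp (v + Real.log a) < (⌊Real.exp (v + Real.log a)⌋₊ : ℝ) + 1 :=
        Nat.lt_floor_add_one _
      have h5 : ContinuousAt (fun v : ℝ => Real.exp (v + Real.log a)) v := by fun_prop
      have h6 : ∀ᶠ v' in 𝓝 v, Real.exp (v' + Real.log a) <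
          (⌊Real.exp (v + Real.log a)⌋₊ : ℝ) + 1 := h5.eventually_lt_const h4
      filter_upwards [self_mem_nhdsWithin, mem_nhdsWithin_of_mem_nhds h6] with v' hv1 hv2
      refine gf_cont hR _ _ ?_ hv2
      refine lt_of_le_of_lt (Nat.floor_le (Real.exp_pos _).le) (Real.exp_lt_exp.2 ?_)
      have : v < v' := hv1
      linarith
    filter_upwards [hev] with v' hv'
    refine hk v' ?_
    unfold gL
    refine tendsto_finsetSum _ fun a ha => Tendsto.const_mul _ ?_
    exact ContinuousAt.comp (f := fun v : ℝ => v + Real.log a) (hv' a ha) (by fun_prop)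
  have h1 := hle (Real.log x)
  have hsx : 0 < √x := Real.sqrt_pos.2 hx
  have hexp : Real.exp (-(Real.log x / 2)) = (√x)⁻¹ := by
    rw [Real.exp_neg, Real.sqrt_eq_rpow, Real.rpow_def_of_pos hx]
    congr 2
    ring
  have h2 : gL J c gf (Real.log x) = (∑ a ∈ J, c a * N (a * x)) * (√x)⁻¹ := by
    unfold gL
    rw [Finset.sum_mul]
    refine Finset.sum_congr rfl fun a ha => ?_
    have ha0 := hJ a ha
    have hsa : 0 < √a := Real.sqrt_pos.2 ha0
    unfold gf
    rw [Real.exp_add, Real.exp_log hx, Real.exp_log ha0]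
    have h3 : Real.exp (-((Real.log x + Real.log a) / 2)) = (√x)⁻¹ * (√a)⁻¹ := by
      have e1 : -((Real.log x + Real.log a) / 2) = -(Real.log x / 2) + -(Real.log a / 2) := by ring
      rw [e1, Real.exp_add, hexp]
      congr 1
      rw [Real.exp_neg, Real.sqrt_eq_rpow, Real.rpow_def_of_pos ha0]
      congr 2
      ring
    rw [h3, mul_comm x a]
    field_simp
  rw [h2, ← div_eq_mul_inv, div_le_iff₀ hsx] at h1
  exact h1

/-! ### RF -/

theorem rf_core (hYA : T_YA) {CP : ℝ} (hCP : ∀ s : ℂ, -1 < s.re → ‖Pf s‖ ≤ CP) (C C0 : ℝ) (k : ℕ)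
    (z : ℂ) (hz0 : 0 < |z.re|) (hz : |z.re| ≤ 3 / 4)
    (h1 : 1 / 8 ≤ ‖z + 1 / 2‖) (h2 : 1 / 8 ≤ ‖1 - (z + 1 / 2)‖)
    (hg : ‖iz (z + 1 / 2) / (z + 1 / 2)‖ ≤ C * (1 + |(z + 1 / 2).im|) ^ k *
      ‖iz (1 - (z + 1 / 2)) / (1 - (z + 1 / 2))‖)
    (h0 : ‖Hf (-z)‖ ≤ C0 * (1 + |(-z).im|) ^ 0 / |z.re|) :
    ‖Hf z‖ ≤ (|C| * (|C0| + 16 + |CP|) + 16 + |CP|) * (1 + |z.im|) ^ k / |z.re| := by
  have hre1 : (z + 1 / 2).re = z.re + 1 / 2 := by simp
  have him1 : (z + 1 / 2).im = z.im := by simp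
  have hre2 : (1 - (z + 1 / 2)).re = 1 / 2 - z.re := by
    simp
    ring
  have habs := abs_le.1 hz
  have hP1 := hCP (z + 1 / 2) (by rw [hre1]; linarith)
  have hP2 := hCP (1 - (z + 1 / 2)) (by rw [hre2]; linarith)
  have hn1 : z + 1 / 2 ≠ 0 := by
    intro h
    rw [h, norm_zero] at h1
    norm_num at h1
  have hn2 : 1 - (z + 1 / 2) ≠ 0 := by
    intro h
    rw [h, norm_zero] at h2
    norm_num at h2
  have hY1 := hYA.1 _ hn1
  have hY2 := hYA.1 _ hn2
  have hH1 : Hf z = (iz (z + 1 / 2) + 2) / (z + 1 / 2) - Pf (z + 1 / 2) := hY1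
  have hH2 : Hf (-z) = (iz (1 - (z + 1 / 2)) + 2) / (1 - (z + 1 / 2)) - Pf (1 - (z + 1 / 2)) := by
    rw [← hY2]
    unfold Hf
    congr 1
    ring
  have hd1 : ‖(2 : ℂ) / (z + 1 / 2)‖ ≤ 16 := by
    rw [norm_div, Complex.norm_ofNat, div_le_iff₀ (by linarith)]
    linarith
  have hd2 : ‖(2 : ℂ) / (1 - (z + 1 / 2))‖ ≤ 16 := by
    rw [norm_div, Complex.norm_ofNat, div_le_iff₀ (by linarith)]
    linarith
  have hA : ‖iz (1 - (z + 1 / 2)) / (1 - (z + 1 / 2))‖ ≤ |C0| / |z.re| + 16 + |CP| := by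
    have e1 : iz (1 - (z + 1 / 2)) / (1 - (z + 1 / 2)) = Hf (-z) - 2 / (1 - (z + 1 / 2)) +
        Pf (1 - (z + 1 / 2)) := by
      rw [hH2, add_div]
      ring
    rw [e1]
    refine (norm_add_le _ _).trans ?_
    have h3 := norm_sub_le (Hf (-z)) (2 / (1 - (z + 1 / 2)))
    have h4 : ‖Hf (-z)‖ ≤ |C0| / |z.re| := by
      refine h0.trans ?_
      rw [pow_zero, mul_one]
      exact div_le_div_of_nonneg_right (le_abs_self C0) hz0.le
    linarith [le_abs_self CP]
  have hw1 : (1 : ℝ) ≤ 1 / |z.re| := by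
    rw [le_div_iff₀ hz0]
    linarith
  have hA' : ‖iz (1 - (z + 1 / 2)) / (1 - (z + 1 / 2))‖ ≤ (|C0| + 16 + |CP|) / |z.re| := by
    refine hA.trans ?_
    have h5 : (16 + |CP|) * 1 ≤ (16 + |CP|) * (1 / |z.re|) :=
      mul_le_mul_of_nonneg_left hw1 (by positivity)
    have h6 : (|C0| + 16 + |CP|) / |z.re| = |C0| / |z.re| + (16 + |CP|) * (1 / |z.re|) := by
      ring
    rw [h6]
    linarith
  set X : ℝ := (1 + |z.im|) ^ k with hX
  have hX1 : 1 ≤ X := one_le_pow₀ (by linarith [abs_nonneg z.im])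
  rw [him1, ← hX] at hg
  have hB : ‖iz (z + 1 / 2) / (z + 1 / 2)‖ ≤ |C| * (|C0| + 16 + |CP|) * X / |z.re| := by
    refine hg.trans ?_
    calc C * X * ‖iz (1 - (z + 1 / 2)) / (1 - (z + 1 / 2))‖
        ≤ |C| * X * ((|C0| + 16 + |CP|) / |z.re|) := by
          refine mul_le_mul ?_ hA' (norm_nonneg _) (by positivity)
          exact mul_le_mul_of_nonneg_right (le_abs_self C) (by positivity)
      _ = _ := by ring
  have e2 : Hf z = iz (z + 1 / 2) / (z + 1 / 2) + 2 / (z + 1 / 2) - Pf (z + 1 / 2) := by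
    rw [hH1, add_div]
  rw [e2]
  refine (norm_sub_le _ _).trans ?_
  have h7 := norm_add_le (iz (z + 1 / 2) / (z + 1 / 2)) (2 / (z + 1 / 2))
  have h8 : (16 + |CP|) * 1 ≤ (16 + |CP|) * (X * (1 / |z.re|)) := by
    refine mul_le_mul_of_nonneg_left ?_ (by positivity)
    calc (1 : ℝ) = 1 * 1 := (mul_one 1).symm
      _ ≤ X * (1 / |z.re|) := mul_le_mul hX1 hw1 zero_le_one (by positivity)
  have h9 : (|C| * (|C0| + 16 + |CP|) + 16 + |CP|) * X / |z.re| =
      |C| * (|C0| + 16 + |CP|) * X / |z.re| + (16 + |CP|) * (X * (1 / |z.re|)) := by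
    ring
  rw [h9]
  linarith [le_abs_self CP]

theorem ball_bd (hYA : T_YA) (w : ℂ) (h : ∀ s : ℂ, ‖s - w‖ ≤ 1 / 8 → -1 < s.re ∧
    (s = 1 ∨ riemannZeta s ≠ 0)) : ∃ K : ℝ, ∀ s : ℂ, ‖s - w‖ ≤ 1 / 8 → ‖Y s‖ ≤ K := by
  have hc : ContinuousOn Y (Metric.closedBall w (1 / 8)) := by
    intro s hs
    rw [Metric.mem_closedBall, dist_eq_norm] at hs
    exact ((hYA.2 s (h s hs).1 (h s hs).2).continuousAt).continuousWithinAt
  obtain ⟨K, hK⟩ := (isCompact_closedBall w (1 / 8)).exists_bound_of_continuousOn hc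
  refine ⟨K, fun s hs => hK s ?_⟩
  rwa [Metric.mem_closedBall, dist_eq_norm]

theorem comb {K D X r : ℝ} {A : ℝ} (hX : 1 ≤ X) (hr0 : 0 < r) (hr : r ≤ 3 / 4)
    (h : A ≤ K ∨ A ≤ D * X / r) : A ≤ (|K| + |D|) * X / r := by
  have hw1 : (1 : ℝ) ≤ 1 / r := by
    rw [le_div_iff₀ hr0]
    linarith
  have h1 : (1 : ℝ) ≤ X * (1 / r) := by
    calc (1 : ℝ) = 1 * 1 := (mul_one 1).symm
      _ ≤ X * (1 / r) := mul_le_mul hX hw1 zero_le_one (by positivity)
  have h2 : (|K| + |D|) * X / r = |K| * (X * (1 / r)) + |D| * (X * (1 / r)) := by ring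
  rw [h2]
  rcases h with h | h
  · have h3 := mul_le_mul_of_nonneg_left h1 (abs_nonneg K)
    have h4 : 0 ≤ |D| * (X * (1 / r)) := by positivity
    linarith [le_abs_self K]
  · have h3 : D * X / r ≤ |D| * (X * (1 / r)) := by
      have h5 : D * X / r = D * (X * (1 / r)) := by ring
      rw [h5]
      exact mul_le_mul_of_nonneg_right (le_abs_self D) (by positivity)
    have h4 : 0 ≤ |K| * (X * (1 / r)) := by positivity
    linarith

theorem pf_RF (hGR : T_GR) (hYA : T_YA) (hPS : T_PS) : T_RF := by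
  intro hR hL
  obtain ⟨C, k, hg1, hg2⟩ := hGR
  obtain ⟨_, _, CP, hCP⟩ := hPS
  constructor
  · rintro ⟨C0, hC0⟩
    obtain ⟨K, hK⟩ := ball_bd hYA 0 (fun s hs => by
      rw [sub_zero] at hs
      have h1 := (Complex.abs_re_le_norm s).trans hs
      have h2 := abs_le.1 h1
      exact ⟨by linarith, Or.inr (hL s (by linarith) (by linarith))⟩)
    refine ⟨k, |K| + |(|C| * (|C0| + 16 + |CP|) + 16 + |CP|)|, fun z hz1 hz2 => ?_⟩
    have hX1 : (1 : ℝ) ≤ (1 + |z.im|) ^ k := one_le_pow₀ (by linarith [abs_nonneg z.im])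
    have ha : |z.re| = -z.re := abs_of_neg hz2
    refine comb hX1 (by rw [ha]; linarith) (by rw [ha]; linarith) ?_
    rcases le_total ‖z + 1 / 2‖ (1 / 8) with h | h
    · left
      exact hK (z + 1 / 2) (by rwa [sub_zero])
    · right
      have hre1 : (z + 1 / 2).re = z.re + 1 / 2 := by simp
      have hre2 : (1 - (z + 1 / 2)).re = 1 / 2 - z.re := by
        simp
        ring
      refine rf_core hYA hCP C C0 k z (by rw [ha]; linarith) (by rw [ha]; linarith) h ?_
        (hg1 _ (by rw [hre1]; linarith) (by rw [hre1]; linarith) h) ?_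
      · refine le_trans ?_ (Complex.re_le_norm _)
        rw [hre2]
        linarith
      · have h3 := hC0 (-z) (by rw [neg_re]; linarith) (by rw [neg_re]; linarith)
        rw [ha]
        rwa [neg_re] at h3
  · rintro ⟨C0, hC0⟩
    obtain ⟨K, hK⟩ := ball_bd hYA 1 (fun s hs => by
      have h1 := (Complex.abs_re_le_norm (s - 1)).trans hs
      have h2 := abs_le.1 h1
      rw [sub_re, one_re] at h2
      refine ⟨by linarith, ?_⟩
      by_cases h3 : s = 1
      · exact Or.inl h3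
      · exact Or.inr (hR s (by linarith) h3))
    refine ⟨k, |K| + |(|C| * (|C0| + 16 + |CP|) + 16 + |CP|)|, fun z hz1 hz2 => ?_⟩
    have hX1 : (1 : ℝ) ≤ (1 + |z.im|) ^ k := one_le_pow₀ (by linarith [abs_nonneg z.im])
    have ha : |z.re| = z.re := abs_of_pos hz1
    have hcomb := comb (K := K) (D := |C| * (|C0| + 16 + |CP|) + 16 + |CP|) (A := ‖Hf z‖) hX1
      (r := z.re) hz1 hz2 ?_
    · exact hcomb
    · rcases le_total ‖1 - (z + 1 / 2)‖ (1 / 8) with h | h
      · left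
        exact hK (z + 1 / 2) (by rwa [norm_sub_rev])
      · right
        have hre1 : (z + 1 / 2).re = z.re + 1 / 2 := by simp
        have h4 := rf_core hYA hCP C C0 k z (by rw [ha]; linarith) (by rw [ha]; linarith) ?_ h
          (hg2 _ (by rw [hre1]; linarith) (by rw [hre1]; linarith) h) ?_
        · rwa [ha] at h4
        · refine le_trans ?_ (Complex.re_le_norm _)
          rw [hre1]
          linarith
        · have h3 := hC0 (-z) (by rw [neg_re]; linarith) (by rw [neg_re]; linarith)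
          rw [neg_re, abs_neg] at h3
          exact h3

end Pool.Agent.H67.MF
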