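import Pool.Agent.H25.MF.Targets
import Pool.Agent.Ratios.Contour

/-!
Board mf (`MP_118735_nt`): rows SL, FR, SP (helper67).
-/

set_option autoImplicit false

open Complex MeasureTheory Set Filter Topology

namespace Pool.Agent.H67.MF

open Pool.Agent.H25.MF

/-! ### SL -/

theorem re_ex (τ v : ℝ) (z : ℂ) : (z * v + τ ^ 2 * z ^ 2 / 2).re =
    z.re * v + τ ^ 2 * (z.re ^ 2 - z.im ^ 2) / 2 := by
  have h1 : z * v + τ ^ 2 * z ^ 2 / 2 = z * (v : ℂ) + ((τ ^ 2 / 2 : ℝ) : ℂ) * (z * z) := by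
    push_cast
    ring
  rw [h1, add_re, re_mul_ofReal, re_ofReal_mul, mul_re]
  ring

theorem Fbd {H : ℂ → ℂ} (hB : Bd H) (τ v δ : ℝ) (hτ : 0 < τ) (hδ : 0 < δ) :
    ∃ C : ℝ, ∀ z : ℂ, δ ≤ |z.re| → |z.re| ≤ 3 / 4 →
      ‖H z * cexp (z * v + τ ^ 2 * z ^ 2 / 2)‖ ≤ C * Real.exp (-(1 * |z.im|)) := by
  obtain ⟨C, k, hC⟩ := hB
  refine ⟨|C| / δ * (k.factorial * Real.exp (1 + |v| + τ ^ 2 + 2 / τ ^ 2)), fun z h1 h2 => ?_⟩
  have h0 : 0 < |z.re| := lt_of_lt_of_le hδ h1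
  have h3 : ‖H z‖ ≤ |C| / δ * (1 + |z.im|) ^ k := by
    refine (hC z h0 h2).trans ?_
    rw [div_mul_eq_mul_div]
    have h4 : C * (1 + |z.im|) ^ k ≤ |C| * (1 + |z.im|) ^ k :=
      mul_le_mul_of_nonneg_right (le_abs_self C) (by positivity)
    exact div_le_div₀ (by positivity) h4 hδ h1
  have h5 : (1 + |z.im|) ^ k ≤ k.factorial * Real.exp (1 + |z.im|) := by
    have h6 := Real.pow_div_factorial_le_exp (1 + |z.im|) (by positivity) k
    rw [div_le_iff₀ (by positivity)] at h6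
    linarith
  rw [norm_mul, Complex.norm_exp, re_ex]
  have h7 : z.re * v + τ ^ 2 * (z.re ^ 2 - z.im ^ 2) / 2 ≤ |v| + τ ^ 2 - τ ^ 2 * |z.im| ^ 2 / 2 := by
    have h8 : z.re * v ≤ |v| := by
      calc z.re * v ≤ |z.re * v| := le_abs_self _
        _ = |z.re| * |v| := abs_mul _ _
        _ ≤ 1 * |v| := mul_le_mul_of_nonneg_right (by linarith) (abs_nonneg v)
        _ = |v| := one_mul _
    have h9 : z.re ^ 2 ≤ 1 := by
      rw [← sq_abs]
      nlinarith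
    have h10 : |z.im| ^ 2 = z.im ^ 2 := sq_abs _
    rw [h10]
    have h11 : τ ^ 2 * z.re ^ 2 ≤ τ ^ 2 * 1 := mul_le_mul_of_nonneg_left h9 (by positivity)
    nlinarith [sq_nonneg τ]
  have h12 : 2 * |z.im| - τ ^ 2 * |z.im| ^ 2 / 2 ≤ 2 / τ ^ 2 := by
    have h13 : 0 ≤ (τ * |z.im| - 2 / τ) ^ 2 := sq_nonneg _
    have h14 : (τ * |z.im| - 2 / τ) ^ 2 = τ ^ 2 * |z.im| ^ 2 - 4 * |z.im| + 4 / τ ^ 2 := by
      field_simp
      ring
    rw [h14] at h13
    have h15 : 4 / τ ^ 2 = 2 * (2 / τ ^ 2) := by ring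
    rw [h15] at h13
    linarith
  calc ‖H z‖ * Real.exp (z.re * v + τ ^ 2 * (z.re ^ 2 - z.im ^ 2) / 2)
      ≤ (|C| / δ * (k.factorial * Real.exp (1 + |z.im|))) *
        Real.exp (|v| + τ ^ 2 - τ ^ 2 * |z.im| ^ 2 / 2) := by
        refine mul_le_mul (h3.trans ?_) (Real.exp_le_exp.2 h7) (Real.exp_pos _).le (by positivity)
        exact mul_le_mul_of_nonneg_left h5 (by positivity)
    _ = |C| / δ * (k.factorial *
        Real.exp ((1 + |z.im|) + (|v| + τ ^ 2 - τ ^ 2 * |z.im| ^ 2 / 2))) := by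
        rw [Real.exp_add (1 + |z.im|)]
        ring
    _ ≤ |C| / δ * (k.factorial * Real.exp ((1 + |v| + τ ^ 2 + 2 / τ ^ 2) + (-(1 * |z.im|)))) := by
        refine mul_le_mul_of_nonneg_left ?_ (by positivity)
        refine mul_le_mul_of_nonneg_left (Real.exp_le_exp.2 ?_) (by positivity)
        linarith
    _ = _ := by
        rw [Real.exp_add (1 + |v| + τ ^ 2 + 2 / τ ^ 2)]
        ring

theorem pf_SL : T_SL := by
  intro H hD hB τ v δ hτ hδ hδ2
  obtain ⟨C, hC⟩ := Fbd hB τ v δ hτ hδ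
  have hdiff : ∀ z : ℂ, 0 < |z.re| → |z.re| ≤ 3 / 4 →
      DifferentiableAt ℂ (fun z : ℂ => H z * cexp (z * v + τ ^ 2 * z ^ 2 / 2)) z := by
    intro z h1 h2
    exact (hD z h1 (by linarith)).mul (by fun_prop)
  constructor
  · have h := Pool.Agent.Ratios.integral_vertical_shift
      (fun z : ℂ => H z * cexp (z * v + τ ^ 2 * z ^ 2 / 2)) δ (3 / 4) hδ2 C 1 one_pos
      (fun z h1 h2 => hdiff z (by rw [abs_of_pos (by linarith)]; linarith)
        (by rw [abs_of_pos (by linarith)]; linarith))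
      (fun z h1 h2 => hC z (by rw [abs_of_pos (by linarith)]; linarith)
        (by rw [abs_of_pos (by linarith)]; linarith))
    unfold rep
    rw [h]
  · have h := Pool.Agent.Ratios.integral_vertical_shift
      (fun z : ℂ => H z * cexp (z * v + τ ^ 2 * z ^ 2 / 2)) (-(3 / 4)) (-δ) (by linarith) C 1
      one_pos
      (fun z h1 h2 => hdiff z (by rw [abs_of_neg (by linarith)]; linarith)
        (by rw [abs_of_neg (by linarith)]; linarith))
      (fun z h1 h2 => hC z (by rw [abs_of_neg (by linarith)]; linarith)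
        (by rw [abs_of_neg (by linarith)]; linarith))
    unfold rep
    rw [← h]

/-! ### SP -/

theorem int_quad (b c d : ℝ) (hb : 0 < b) :
    Integrable (fun u : ℝ => Real.exp (-(b * u ^ 2) + c * u + d)) := by
  have h := (integrable_cexp_quadratic' (b := (-b : ℂ)) (by simpa using hb) (c : ℂ) (d : ℂ)).norm
  refine h.congr (Eventually.of_forall fun u => ?_)
  simp only
  rw [Complex.norm_exp]
  congr 1
  have : (-b : ℂ) * (u : ℂ) ^ 2 + (c : ℂ) * u + d = ((-(b * u ^ 2) + c * u + d : ℝ) : ℂ) := by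
    push_cast
    ring
  rw [this, ofReal_re]

/-- the dominating function -/
theorem dom {g : ℝ → ℝ} {B : ℝ} (hB : ∀ v : ℝ, |g v| ≤ B * Real.exp (5 / 8 * |v|)) {τ : ℝ}
    (hτ : 0 < τ) (v₀ v u : ℝ) (hv : |v - v₀| ≤ 1) :
    ‖g u * gs τ (v - u)‖ ≤ |B| * (τ * √(2 * Real.pi))⁻¹ *
      (Real.exp (-((4 * τ ^ 2)⁻¹ * u ^ 2) + ((2 * τ ^ 2)⁻¹ * v₀ + 5 / 8) * u +
        ((2 * τ ^ 2)⁻¹ - (4 * τ ^ 2)⁻¹ * v₀ ^ 2)) +
      Real.exp (-((4 * τ ^ 2)⁻¹ * u ^ 2) + ((2 * τ ^ 2)⁻¹ * v₀ - 5 / 8) * u +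
        ((2 * τ ^ 2)⁻¹ - (4 * τ ^ 2)⁻¹ * v₀ ^ 2))) := by
  have hc : 0 < (τ * √(2 * Real.pi))⁻¹ := by positivity
  have h1 : |g u| ≤ |B| * (Real.exp (5 / 8 * u) + Real.exp (-(5 / 8 * u))) := by
    refine (hB u).trans ((mul_le_mul_of_nonneg_right (le_abs_self B) (Real.exp_pos _).le).trans ?_)
    refine mul_le_mul_of_nonneg_left ?_ (abs_nonneg B)
    rcases abs_cases u with ⟨h, _⟩ | ⟨h, _⟩
    · rw [h]
      linarith [Real.exp_pos (-(5 / 8 * u))]
    · rw [h, mul_neg]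
      linarith [Real.exp_pos (5 / 8 * u)]
  have h2 : gs τ (v - u) ≤ (τ * √(2 * Real.pi))⁻¹ *
      Real.exp ((2 * τ ^ 2)⁻¹ - (4 * τ ^ 2)⁻¹ * (u - v₀) ^ 2) := by
    unfold gs
    refine mul_le_mul_of_nonneg_left (Real.exp_le_exp.2 ?_) hc.le
    have h3 : (u - v₀) ^ 2 / 2 - 1 ≤ (v - u) ^ 2 := by
      have h4 : (v - v₀) ^ 2 ≤ 1 := by
        rw [← sq_abs]
        nlinarith [abs_nonneg (v - v₀)]
      nlinarith [sq_nonneg ((u - v₀) - 2 * (v - v₀))]
    have h5 : 0 < (2 * τ ^ 2)⁻¹ := by positivity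
    have h6 : (4 * τ ^ 2)⁻¹ = (2 * τ ^ 2)⁻¹ / 2 := by
      field_simp
      ring
    rw [h6, div_eq_mul_inv]
    nlinarith
  have h7 : 0 ≤ gs τ (v - u) := by
    unfold gs
    positivity
  rw [Real.norm_eq_abs, abs_mul, abs_of_nonneg h7]
  refine (mul_le_mul h1 h2 h7 (by positivity)).trans (le_of_eq ?_)
  have e1 : Real.exp (-((4 * τ ^ 2)⁻¹ * u ^ 2) + ((2 * τ ^ 2)⁻¹ * v₀ + 5 / 8) * u +
        ((2 * τ ^ 2)⁻¹ - (4 * τ ^ 2)⁻¹ * v₀ ^ 2)) = Real.exp (5 / 8 * u) *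
        Real.exp ((2 * τ ^ 2)⁻¹ - (4 * τ ^ 2)⁻¹ * (u - v₀) ^ 2) := by
    rw [← Real.exp_add]
    congr 1
    have h6 : (4 * τ ^ 2)⁻¹ = (2 * τ ^ 2)⁻¹ / 2 := by
      field_simp
      ring
    rw [h6]
    ring
  have e2 : Real.exp (-((4 * τ ^ 2)⁻¹ * u ^ 2) + ((2 * τ ^ 2)⁻¹ * v₀ - 5 / 8) * u +
        ((2 * τ ^ 2)⁻¹ - (4 * τ ^ 2)⁻¹ * v₀ ^ 2)) = Real.exp (-(5 / 8 * u)) *
        Real.exp ((2 * τ ^ 2)⁻¹ - (4 * τ ^ 2)⁻¹ * (u - v₀) ^ 2) := by
    rw [← Real.exp_add]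
    congr 1
    have h6 : (4 * τ ^ 2)⁻¹ = (2 * τ ^ 2)⁻¹ / 2 := by
      field_simp
      ring
    rw [h6]
    ring
  rw [e1, e2]
  ring

theorem dom_int (τ v₀ A : ℝ) (hτ : 0 < τ) : Integrable (fun u : ℝ => A *
      (Real.exp (-((4 * τ ^ 2)⁻¹ * u ^ 2) + ((2 * τ ^ 2)⁻¹ * v₀ + 5 / 8) * u +
        ((2 * τ ^ 2)⁻¹ - (4 * τ ^ 2)⁻¹ * v₀ ^ 2)) +
      Real.exp (-((4 * τ ^ 2)⁻¹ * u ^ 2) + ((2 * τ ^ 2)⁻¹ * v₀ - 5 / 8) * u +
        ((2 * τ ^ 2)⁻¹ - (4 * τ ^ 2)⁻¹ * v₀ ^ 2)))) :=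
  ((int_quad _ _ _ (by positivity)).add (int_quad _ _ _ (by positivity))).const_mul A

theorem gs_cont (τ : ℝ) : Continuous (gs τ) := by
  unfold gs
  fun_prop

theorem gsm_meas {g : ℝ → ℝ} (hg : Measurable g) (τ v : ℝ) :
    Measurable (fun u => g u * gs τ (v - u)) :=
  hg.mul ((gs_cont τ).measurable.comp (measurable_const.sub measurable_id))

theorem gsm_int {g : ℝ → ℝ} (hg : Gr g) {τ : ℝ} (hτ : 0 < τ) (v : ℝ) :
    Integrable (fun u => g u * gs τ (v - u)) := by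
  obtain ⟨hm, B, hB⟩ := hg
  refine (dom_int τ v (|B| * (τ * √(2 * Real.pi))⁻¹) hτ).mono'
    (gsm_meas hm τ v).aestronglyMeasurable (Eventually.of_forall fun u => ?_)
  exact dom hB hτ v v u (by simp)

theorem sm_cont {g : ℝ → ℝ} (hg : Gr g) {τ : ℝ} (hτ : 0 < τ) (S : Set ℝ) :
    Continuous (fun v => ∫ u in S, g u * gs τ (v - u)) := by
  obtain ⟨hm, B, hB⟩ := hg
  rw [continuous_iff_continuousAt]
  intro v₀
  have hnear : ∀ᶠ v in 𝓝 v₀, |v - v₀| ≤ 1 := by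
    filter_upwards [Metric.closedBall_mem_nhds v₀ one_pos] with v hv
    rwa [Metric.mem_closedBall, Real.dist_eq] at hv
  refine continuousAt_of_dominated (bound := fun u : ℝ => (|B| * (τ * √(2 * Real.pi))⁻¹) *
      (Real.exp (-((4 * τ ^ 2)⁻¹ * u ^ 2) + ((2 * τ ^ 2)⁻¹ * v₀ + 5 / 8) * u +
        ((2 * τ ^ 2)⁻¹ - (4 * τ ^ 2)⁻¹ * v₀ ^ 2)) +
      Real.exp (-((4 * τ ^ 2)⁻¹ * u ^ 2) + ((2 * τ ^ 2)⁻¹ * v₀ - 5 / 8) * u +
        ((2 * τ ^ 2)⁻¹ - (4 * τ ^ 2)⁻¹ * v₀ ^ 2)))) ?_ ?_ ?_ ?_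
  · exact Eventually.of_forall fun v => (gsm_meas hm τ v).aestronglyMeasurable
  · filter_upwards [hnear] with v hv
    exact Eventually.of_forall fun u => dom hB hτ v₀ v u hv
  · exact (dom_int τ v₀ _ hτ).integrableOn
  · refine Eventually.of_forall fun u => ContinuousAt.mul continuousAt_const ?_
    exact ((gs_cont τ).comp (continuous_id.sub continuous_const)).continuousAt

theorem pf_SP : T_SP := by
  intro g hg τ hτ
  refine ⟨sm_cont hg hτ _, sm_cont hg hτ _, fun v => ?_⟩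
  have hI := gsm_int hg hτ v
  unfold sm smp smm
  rw [← integral_Iic_eq_integral_Iio, add_comm, ← setIntegral_univ, ← Iic_union_Ioi (a := (0 : ℝ))]
  exact setIntegral_union (Iic_disjoint_Ioi le_rfl) measurableSet_Ioi hI.integrableOn
    hI.integrableOn

/-! ### FR -/

theorem swap_half {g : ℝ → ℝ} (hg : Gr g) (S : Set ℝ) (σ τ v : ℝ) (hτ : 0 < τ)
    (hint : IntegrableOn (fun u : ℝ => |g u| * Real.exp (-(σ * u))) S) (hGI : T_GI) :
    (2 * Real.pi : ℂ)⁻¹ * ∫ t : ℝ, (∫ u in S, (g u : ℂ) * cexp (-(((σ : ℂ) + t * I) * u))) *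
      cexp (((σ : ℂ) + t * I) * v + τ ^ 2 * ((σ : ℂ) + t * I) ^ 2 / 2) =
    ((∫ u in S, g u * gs τ (v - u) : ℝ) : ℂ) := by
  obtain ⟨hm, B, hB⟩ := hg
  have hG : Integrable (fun t : ℝ => Real.exp (σ * v + τ ^ 2 * (σ ^ 2 - t ^ 2) / 2)) := by
    refine (int_quad (τ ^ 2 / 2) 0 (σ * v + τ ^ 2 * σ ^ 2 / 2) (by positivity)).congr
      (Eventually.of_forall fun t => ?_)
    simp only
    congr 1
    ring
  have hprod : Integrable (fun p : ℝ × ℝ => ((g p.2 : ℂ) * cexp (-(((σ : ℂ) + p.1 * I) * p.2))) *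
      cexp (((σ : ℂ) + p.1 * I) * v + τ ^ 2 * ((σ : ℂ) + p.1 * I) ^ 2 / 2))
      (volume.prod (volume.restrict S)) := by
    have h1 := hG.mul_prod hint
    refine h1.mono' ?_ (Eventually.of_forall fun p => ?_)
    · refine Measurable.aestronglyMeasurable ?_
      refine Measurable.mul (Measurable.mul ?_ ?_) ?_
      · exact (Complex.measurable_ofReal.comp hm).comp measurable_snd
      · fun_prop
      · fun_prop
    · rw [norm_mul, norm_mul, Complex.norm_exp, Complex.norm_exp, re_ex, Complex.norm_real,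
        Real.norm_eq_abs]
      have e1 : (-(((σ : ℂ) + p.1 * I) * p.2)).re = -(σ * p.2) := by simp
      have e2 : ((σ : ℂ) + p.1 * I).re = σ := by simp
      have e3 : ((σ : ℂ) + p.1 * I).im = p.1 := by simp
      rw [e1, e2, e3]
      refine le_of_eq ?_
      ring
  have hsw := integral_integral_swap (f := fun (t : ℝ) (u : ℝ) =>
    ((g u : ℂ) * cexp (-(((σ : ℂ) + t * I) * u))) *
      cexp (((σ : ℂ) + t * I) * v + τ ^ 2 * ((σ : ℂ) + t * I) ^ 2 / 2)) (μ := volume)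
      (ν := volume.restrict S) hprod
  have h2 : ∀ t : ℝ, (∫ u in S, (g u : ℂ) * cexp (-(((σ : ℂ) + t * I) * u))) *
      cexp (((σ : ℂ) + t * I) * v + τ ^ 2 * ((σ : ℂ) + t * I) ^ 2 / 2) =
      ∫ u in S, ((g u : ℂ) * cexp (-(((σ : ℂ) + t * I) * u))) *
      cexp (((σ : ℂ) + t * I) * v + τ ^ 2 * ((σ : ℂ) + t * I) ^ 2 / 2) := fun t =>
    (integral_mul_const _ _).symm
  simp_rw [h2]
  rw [hsw, ← integral_const_mul, ← integral_complex_ofReal]
  refine integral_congr_ae (Eventually.of_forall fun u => ?_)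
  simp only
  have h3 : ∀ t : ℝ, ((g u : ℂ) * cexp (-(((σ : ℂ) + t * I) * u))) *
      cexp (((σ : ℂ) + t * I) * v + τ ^ 2 * ((σ : ℂ) + t * I) ^ 2 / 2) =
      (g u : ℂ) * cexp (((σ : ℂ) + t * I) * ((v - u : ℝ) : ℂ) +
        τ ^ 2 * ((σ : ℂ) + t * I) ^ 2 / 2) := by
    intro t
    rw [mul_assoc, ← Complex.exp_add]
    congr 2
    push_cast
    ring
  simp_rw [h3]
  rw [integral_const_mul, ofReal_mul, ← hGI τ σ (v - u) hτ]
  ring

theorem pf_FR (hGI : T_GI) : T_FR := by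
  intro g H hH τ v hτ
  obtain ⟨hm, B, hB⟩ := hH.gr
  constructor
  · unfold rep smp
    rw [← swap_half hH.gr (Ioi 0) (3 / 4) τ v hτ ?_ hGI]
    · congr 1
      refine integral_congr_ae (Eventually.of_forall fun t => ?_)
      simp only
      rw [hH.plus t]
    · have h1 : IntegrableOn (fun u : ℝ => |B| * Real.exp (-(1 / 8) * u)) (Ioi 0) :=
        (integrableOn_exp_mul_Ioi (by norm_num) 0).const_mul _
      refine h1.mono' ?_ ?_
      · exact (Measurable.mul (by fun_prop) (by fun_prop)).aestronglyMeasurable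
      · refine (ae_restrict_iff' measurableSet_Ioi).2 (Eventually.of_forall fun u hu => ?_)
        rw [norm_mul, Real.norm_eq_abs, abs_abs, Real.norm_eq_abs, abs_of_pos (Real.exp_pos _)]
        have h2 := hB u
        rw [abs_of_pos (a := u) hu] at h2
        calc |g u| * Real.exp (-(3 / 4 * u))
            ≤ (|B| * Real.exp (5 / 8 * u)) * Real.exp (-(3 / 4 * u)) := by
              refine mul_le_mul_of_nonneg_right (h2.trans ?_) (Real.exp_pos _).le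
              exact mul_le_mul_of_nonneg_right (le_abs_self B) (Real.exp_pos _).le
          _ = |B| * Real.exp (-(1 / 8) * u) := by
              rw [mul_assoc, ← Real.exp_add]
              congr 2
              ring
  · unfold rep smm
    rw [← swap_half hH.gr (Iio 0) (-(3 / 4)) τ v hτ ?_ hGI, ← mul_neg, ← integral_neg]
    · congr 1
      refine integral_congr_ae (Eventually.of_forall fun t => ?_)
      simp only
      rw [hH.minus t]
      ring
    · have h1 : IntegrableOn (fun u : ℝ => |B| * Real.exp ((1 / 8) * u)) (Iio 0) :=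
        ((integrableOn_exp_mul_Iic (by norm_num) 0).mono_set Iio_subset_Iic_self).const_mul _
      refine h1.mono' ?_ ?_
      · exact (Measurable.mul (by fun_prop) (by fun_prop)).aestronglyMeasurable
      · refine (ae_restrict_iff' measurableSet_Iio).2 (Eventually.of_forall fun u hu => ?_)
        rw [norm_mul, Real.norm_eq_abs, abs_abs, Real.norm_eq_abs, abs_of_pos (Real.exp_pos _)]
        have h2 := hB u
        rw [abs_of_neg (a := u) hu] at h2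
        calc |g u| * Real.exp (-(-(3 / 4) * u))
            ≤ (|B| * Real.exp (5 / 8 * -u)) * Real.exp (-(-(3 / 4) * u)) := by
              refine mul_le_mul_of_nonneg_right (h2.trans ?_) (Real.exp_pos _).le
              exact mul_le_mul_of_nonneg_right (le_abs_self B) (Real.exp_pos _).le
          _ = |B| * Real.exp ((1 / 8) * u) := by
              rw [mul_assoc, ← Real.exp_add]
              congr 2
              ring

end Pool.Agent.H67.MF
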